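import Pool.Agent.Lib.MP_068a93_gt.Dim

/-!
Decomposition of a space of covering dimension at most `m` into `m + 1` zero-dimensional pieces.
-/

set_option autoImplicit false

open Set Topology Metric

namespace Pool.Agent.Lib.MP_068a93_gt

/-- `E` is zero-dimensional inside `K`: any two disjoint closed subsets of `K` can be separated by
disjoint open sets that cover `E`. -/
def ZeroDimIn {K : Type} [TopologicalSpace K] (E : Set K) : Prop :=
  ∀ C₀ C₁ : Set K, IsClosed C₀ → IsClosed C₁ → Disjoint C₀ C₁ →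
    ∃ U₀ U₁ : Set K, IsOpen U₀ ∧ IsOpen U₁ ∧ Disjoint U₀ U₁ ∧ C₀ ⊆ U₀ ∧ C₁ ⊆ U₁ ∧ E ⊆ U₀ ∪ U₁

variable {X : Type} [TopologicalSpace X]

theorem CovDim.fintype {m : ℕ} (h : CovDim X m) {α : Type} [Fintype α] (U : α → Set X)
    (hU : ∀ a, IsOpen (U a)) (hc : ∀ x, ∃ a, x ∈ U a) :
    ∃ V : α → Set X, (∀ a, IsOpen (V a)) ∧ (∀ a, V a ⊆ U a) ∧ (∀ x, ∃ a, x ∈ V a) ∧
      ∀ x, Set.ncard {a | x ∈ V a} ≤ m + 1 := by
  let e := Fintype.equivFin α
  obtain ⟨V, h1, h2, h3, h4⟩ := h _ (fun i => U (e.symm i)) (fun i => hU _) (by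
    rw [eq_univ_iff_forall]
    intro x
    obtain ⟨a, ha⟩ := hc x
    exact mem_iUnion.2 ⟨e a, by simpa using ha⟩)
  refine ⟨fun a => V (e a), fun a => h1 _, fun a => by simpa using h2 (e a), fun x => ?_,
    fun x => ?_⟩
  · have : x ∈ ⋃ i, V i := h3 ▸ mem_univ x
    obtain ⟨i, hi⟩ := mem_iUnion.1 this
    exact ⟨e.symm i, by simpa using hi⟩
  · refine le_trans (le_of_eq ?_) (h4 x)
    exact Set.ncard_congr (fun a _ => e a) (fun a ha => ha) (fun a b _ _ hab => e.injective hab)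
      (fun i hi => ⟨e.symm i, by simpa using hi, by simp⟩)

theorem exists_cozero [PerfectlyNormalSpace X] {V : Set X} (hV : IsOpen V) :
    ∃ f : C(X, ℝ), (∀ x, 0 ≤ f x) ∧ (∀ x, f x ≤ 1) ∧ ∀ x, 0 < f x ↔ x ∈ V := by
  obtain ⟨f, hf, hf'⟩ := perfectlyNormalSpace_iff_forall_isClosed_preimage_zero.1 inferInstance
    Vᶜ hV.isClosed_compl
  refine ⟨f, fun x => (hf' x).1, fun x => (hf' x).2, fun x => ⟨fun h => ?_, fun h => ?_⟩⟩
  · by_contra hx
    have : x ∈ f ⁻¹' {0} := hf ▸ hx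
    exact h.ne' this
  · refine lt_of_le_of_ne (hf' x).1 fun h0 => ?_
    have : x ∈ f ⁻¹' {0} := h0.symm
    rw [← hf] at this
    exact this h

theorem CovDim.exists_coloured [PerfectlyNormalSpace X] {m : ℕ} (h : CovDim X m) {α : Type}
    [Fintype α] (U : α → Set X) (hU : ∀ a, IsOpen (U a)) (hc : ∀ x, ∃ a, x ∈ U a) :
    ∃ W : Finset α → Set X, (∀ s, IsOpen (W s)) ∧
      (∀ x, ∃ s : Finset α, s.Nonempty ∧ s.card ≤ m + 1 ∧ x ∈ W s) ∧
      (∀ s s' : Finset α, s ≠ s' → s.card = s'.card →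
        Disjoint (closure (W s)) (closure (W s'))) ∧
      (∀ s, ∀ a ∈ s, closure (W s) ⊆ U a) := by
  classical
  obtain ⟨V, h1, h2, h3, h4⟩ := h.fintype U hU hc
  choose φ hφ0 hφ1 hφ using fun a => exists_cozero (h1 a)
  let W0 : Finset α → Set X := fun s =>
    {x | (s.Nonempty ∧ s.card ≤ m + 1) ∧ ∀ a ∈ s, 0 < φ a x ∧ ∀ b ∉ s, φ b x < φ a x}
  have hW0 : ∀ s, IsOpen (W0 s) := by
    intro s
    simp only [W0, ofPred_and, ofPred_forall]
    refine IsOpen.inter (isOpen_const.inter isOpen_const) ?_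
    refine isOpen_iInter_of_finite fun a => isOpen_iInter_of_finite fun _ => ?_
    refine IsOpen.inter (isOpen_lt continuous_const (φ a).continuous) ?_
    exact isOpen_iInter_of_finite fun b => isOpen_iInter_of_finite fun _ =>
      isOpen_lt (φ b).continuous (φ a).continuous
  have hW0c : ⋃ s, W0 s = univ := by
    rw [eq_univ_iff_forall]
    intro x
    obtain ⟨a0, ha0⟩ := h3 x
    obtain ⟨a1, -, ha1⟩ := Finset.univ.exists_max_image (fun a => φ a x) ⟨a0, Finset.mem_univ _⟩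
    have hpos : 0 < φ a1 x := ((hφ a0 x).2 ha0).trans_le (ha1 a0 (Finset.mem_univ _))
    refine mem_iUnion.2 ⟨Finset.univ.filter fun a => φ a x = φ a1 x, ⟨⟨a1, by simp⟩, ?_⟩, ?_⟩
    · refine le_trans ?_ (h4 x)
      rw [← Set.ncard_coe_finset]
      refine Set.ncard_le_ncard ?_ (Set.toFinite _)
      intro a ha
      simp only [Finset.coe_filter, Finset.mem_univ, true_and, mem_ofPred_eq] at ha
      exact (hφ a x).1 (ha ▸ hpos)
    · intro a ha
      simp only [Finset.mem_filter, Finset.mem_univ, true_and] at ha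
      refine ⟨ha ▸ hpos, fun b hb => ?_⟩
      simp only [Finset.mem_filter, Finset.mem_univ, true_and] at hb
      rw [ha]
      exact lt_of_le_of_ne (ha1 b (Finset.mem_univ _)) hb
  obtain ⟨W, hW1, hW2, hW3⟩ := exists_iUnion_eq_closure_subset hW0 (fun x => Set.toFinite _) hW0c
  refine ⟨W, hW2, fun x => ?_, fun s s' hne hcard => ?_, fun s a ha x hx => ?_⟩
  · have : x ∈ ⋃ s, W s := hW1 ▸ mem_univ x
    obtain ⟨s, hs⟩ := mem_iUnion.1 this
    have := hW3 s (subset_closure hs)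
    exact ⟨s, this.1.1, this.1.2, hs⟩
  · refine Set.disjoint_left.2 fun x hx hx' => ?_
    have g1 := (hW3 s hx).2
    have g2 := (hW3 s' hx').2
    have n1 : ¬ s ⊆ s' := fun hs => hne (Finset.eq_of_subset_of_card_le hs hcard.ge)
    have n2 : ¬ s' ⊆ s := fun hs => hne (Finset.eq_of_subset_of_card_le hs hcard.le).symm
    obtain ⟨a, ha, ha'⟩ := Finset.not_subset.1 n1
    obtain ⟨b, hb, hb'⟩ := Finset.not_subset.1 n2
    exact lt_asymm ((g1 a ha).2 b hb') ((g2 b hb).2 a ha')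
  · exact h2 a ((hφ a x).1 ((hW3 s hx).2 a ha).1)

theorem CovDim.step [PerfectlyNormalSpace X] {m : ℕ} (h : CovDim X m)
    (A B : Fin (m + 1) → ℕ → Set X) (hA : ∀ i j, IsClosed (A i j)) (hB : ∀ i j, IsClosed (B i j))
    (hAB : ∀ i j, Disjoint (A i j) (B i j)) (l : ℕ) :
    ∃ A' B' : Fin (m + 1) → ℕ → Set X, (∀ i j, IsClosed (A' i j)) ∧ (∀ i j, IsClosed (B' i j)) ∧
      (∀ i j, Disjoint (A' i j) (B' i j)) ∧ (∀ i j, A i j ⊆ A' i j) ∧ (∀ i j, B i j ⊆ B' i j) ∧
      ∀ x, ∃ i, ∀ j < l, x ∈ interior (A' i j) ∪ interior (B' i j) := by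
  classical
  let U : (Fin (m + 1) × Fin l → Bool) → Set X := fun σ =>
    ⋂ p, if σ p then (A p.1 p.2)ᶜ else (B p.1 p.2)ᶜ
  have hU : ∀ σ, IsOpen (U σ) := by
    intro σ
    refine isOpen_iInter_of_finite fun p => ?_
    split_ifs
    · exact (hA _ _).isOpen_compl
    · exact (hB _ _).isOpen_compl
  have hUc : ∀ x, ∃ σ, x ∈ U σ := by
    intro x
    refine ⟨fun p => decide (x ∉ A p.1 p.2), mem_iInter.2 fun p => ?_⟩
    by_cases hx : x ∈ A p.1 p.2
    · simp only [hx, not_true, decide_false, Bool.false_eq_true, if_false]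
      exact fun hx' => Set.disjoint_left.1 (hAB _ _) hx hx'
    · simp [hx]
  obtain ⟨W, hWo, hWc, hWd, hWs⟩ := h.exists_coloured U hU hUc
  have hWB : ∀ (i : Fin (m + 1)) (j : ℕ), j < l → ∀ s : Finset _, s.card = i + 1 →
      ¬ Disjoint (closure (W s)) (A i j) → Disjoint (closure (W s)) (B i j) := by
    intro i j hj s hs hnd
    obtain ⟨σ, hσ⟩ : s.Nonempty := Finset.card_pos.1 (by omega)
    have hsub := (hWs s σ hσ).trans (iInter_subset _ (i, (⟨j, hj⟩ : Fin l)))
    split_ifs at hsub with hb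
    · exact (hnd (subset_compl_iff_disjoint_right.1 hsub)).elim
    · exact subset_compl_iff_disjoint_right.1 hsub
  refine ⟨fun i j => A i j ∪ ⋃ s, ⋃ (_ : j < l ∧ Finset.card s = (i : ℕ) + 1 ∧
      ¬ Disjoint (closure (W s)) (A i j)), closure (W s),
    fun i j => B i j ∪ ⋃ s, ⋃ (_ : j < l ∧ Finset.card s = (i : ℕ) + 1 ∧
      Disjoint (closure (W s)) (A i j)), closure (W s), ?_, ?_, ?_, ?_, ?_, ?_⟩
  · intro i j
    exact (hA i j).union (isClosed_iUnion_of_finite fun s =>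
      isClosed_iUnion_of_finite fun _ => isClosed_closure)
  · intro i j
    exact (hB i j).union (isClosed_iUnion_of_finite fun s =>
      isClosed_iUnion_of_finite fun _ => isClosed_closure)
  · intro i j
    refine Set.disjoint_left.2 ?_
    rintro x (hx | hx) (hx' | hx')
    · exact Set.disjoint_left.1 (hAB i j) hx hx'
    · simp only [mem_iUnion] at hx'
      obtain ⟨s, ⟨-, -, hs⟩, hxs⟩ := hx'
      exact Set.disjoint_left.1 hs hxs hx
    · simp only [mem_iUnion] at hx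
      obtain ⟨s, ⟨hj, hs, hnd⟩, hxs⟩ := hx
      exact Set.disjoint_left.1 (hWB i j hj s hs hnd) hxs hx'
    · simp only [mem_iUnion] at hx hx'
      obtain ⟨s, ⟨-, hs, hnd⟩, hxs⟩ := hx
      obtain ⟨s', ⟨-, hs', hd⟩, hxs'⟩ := hx'
      have hne : s ≠ s' := by
        rintro rfl
        exact hnd hd
      exact Set.disjoint_left.1 (hWd s s' hne (hs.trans hs'.symm)) hxs hxs'
  · intro i j
    exact subset_union_left
  · intro i j
    exact subset_union_left
  · intro x
    obtain ⟨s, hne, hcard, hx⟩ := hWc x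
    have hpos := hne.card_pos
    refine ⟨⟨s.card - 1, by omega⟩, fun j hj => ?_⟩
    have hs : s.card = ((⟨s.card - 1, by omega⟩ : Fin (m + 1)) : ℕ) + 1 := by
      simp only; omega
    by_cases hd : Disjoint (closure (W s)) (A ⟨s.card - 1, by omega⟩ j)
    · right
      refine interior_maximal (fun y hy => Or.inr ?_) (hWo s) hx
      simp only [mem_iUnion]
      exact ⟨s, ⟨hj, hs, hd⟩, subset_closure hy⟩
    · left
      refine interior_maximal (fun y hy => Or.inr ?_) (hWo s) hx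
      simp only [mem_iUnion]
      exact ⟨s, ⟨hj, hs, hd⟩, subset_closure hy⟩

theorem CovDim.exists_decomp_pairs [PerfectlyNormalSpace X] {m : ℕ} (h : CovDim X m)
    (A B : ℕ → Set X) (hA : ∀ j, IsClosed (A j)) (hB : ∀ j, IsClosed (B j))
    (hAB : ∀ j, Disjoint (A j) (B j)) :
    ∃ Xs : Fin (m + 1) → Set X, (∀ x, ∃ i, x ∈ Xs i) ∧
      ∀ i j, ∃ A' B' : Set X, A j ⊆ A' ∧ B j ⊆ B' ∧ Disjoint A' B' ∧
        Xs i ⊆ interior A' ∪ interior B' := by
  let St := {p : (Fin (m + 1) → ℕ → Set X) × (Fin (m + 1) → ℕ → Set X) //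
    (∀ i j, IsClosed (p.1 i j)) ∧ (∀ i j, IsClosed (p.2 i j)) ∧ ∀ i j, Disjoint (p.1 i j) (p.2 i j)}
  have hstep : ∀ (l : ℕ) (p : St), ∃ q : St, (∀ i j, p.1.1 i j ⊆ q.1.1 i j) ∧
      (∀ i j, p.1.2 i j ⊆ q.1.2 i j) ∧
      ∀ x, ∃ i, ∀ j < l, x ∈ interior (q.1.1 i j) ∪ interior (q.1.2 i j) := by
    intro l p
    obtain ⟨A', B', g1, g2, g3, g4, g5, g6⟩ := h.step p.1.1 p.1.2 p.2.1 p.2.2.1 p.2.2.2 l
    exact ⟨⟨(A', B'), g1, g2, g3⟩, g4, g5, g6⟩
  choose st hst1 hst2 hst3 using hstep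
  let s0 : St := ⟨(fun _ => A, fun _ => B), fun _ => hA, fun _ => hB, fun _ => hAB⟩
  let sq : ℕ → St := fun l => Nat.rec s0 (fun l p => st l p) l
  have hsq : ∀ l, sq (l + 1) = st l (sq l) := fun l => rfl
  have m1 : ∀ i j, Monotone fun l => (sq l).1.1 i j := fun i j =>
    monotone_nat_of_le_succ fun l => by rw [hsq]; exact hst1 l (sq l) i j
  have m2 : ∀ i j, Monotone fun l => (sq l).1.2 i j := fun i j =>
    monotone_nat_of_le_succ fun l => by rw [hsq]; exact hst2 l (sq l) i j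
  refine ⟨fun i => {x | ∀ j, x ∈ interior (⋃ l, (sq l).1.1 i j) ∪ interior (⋃ l, (sq l).1.2 i j)},
    fun x => ?_, fun i j => ⟨⋃ l, (sq l).1.1 i j, ⋃ l, (sq l).1.2 i j, ?_, ?_, ?_, ?_⟩⟩
  · choose ι hι using fun l => hst3 l (sq l) x
    obtain ⟨i, hi⟩ := Finite.exists_infinite_fiber ι
    refine ⟨i, fun j => ?_⟩
    have hinf : (ι ⁻¹' {i}).Infinite := Set.infinite_coe_iff.1 hi
    obtain ⟨l, hl, hjl⟩ := hinf.exists_gt j
    have hl' : ι l = i := hl
    have := hι l j hjl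
    rw [hl', ← hsq] at this
    rcases this with h1 | h1
    · exact Or.inl (interior_mono (subset_iUnion (fun l => (sq l).1.1 i j) (l + 1)) h1)
    · exact Or.inr (interior_mono (subset_iUnion (fun l => (sq l).1.2 i j) (l + 1)) h1)
  · exact subset_iUnion (fun l => (sq l).1.1 i j) 0
  · exact subset_iUnion (fun l => (sq l).1.2 i j) 0
  · refine Set.disjoint_left.2 fun x hx hx' => ?_
    obtain ⟨l, hl⟩ := mem_iUnion.1 hx
    obtain ⟨l', hl'⟩ := mem_iUnion.1 hx'
    exact Set.disjoint_left.1 ((sq (max l l')).2.2.2 i j) (m1 i j (le_max_left _ _) hl)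
      (m2 i j (le_max_right _ _) hl')
  · intro x hx
    exact hx j

/-- The decomposition theorem, relative to a compact metrizable space containing `X`. -/
theorem CovDim.exists_decomp [PerfectlyNormalSpace X] {m : ℕ} (h : CovDim X m) {K : Type}
    [MetricSpace K] [CompactSpace K] {c : X → K} (hc : IsInducing c) :
    ∃ E : Fin (m + 1) → Set K, (∀ x, ∃ i, c x ∈ E i) ∧ ∀ i, ZeroDimIn (E i) := by
  obtain ⟨u, hu⟩ := TopologicalSpace.exists_dense_seq C(K, ℝ)
  obtain ⟨Xs, hXs, hsep⟩ := h.exists_decomp_pairs (fun j => c ⁻¹' {z | u j z ≤ -1})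
    (fun j => c ⁻¹' {z | 1 ≤ u j z})
    (fun j => (isClosed_le (u j).continuous continuous_const).preimage hc.continuous)
    (fun j => (isClosed_le continuous_const (u j).continuous).preimage hc.continuous)
    (fun j => Set.disjoint_left.2 fun x (h1 : u j (c x) ≤ -1) (h2 : 1 ≤ u j (c x)) => by linarith)
  refine ⟨fun i => c '' Xs i, fun x => ?_, fun i C₀ C₁ h0 h1 hd => ?_⟩
  · obtain ⟨i, hi⟩ := hXs x
    exact ⟨i, mem_image_of_mem c hi⟩
  obtain ⟨f, hf0, hf1, -⟩ := exists_continuous_zero_one_of_isClosed h0 h1 hd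
  let v : C(K, ℝ) := ⟨fun z => 4 * f z - 2, by fun_prop⟩
  obtain ⟨j, hj⟩ := hu.exists_dist_lt v (show (0 : ℝ) < 1 / 2 by norm_num)
  have hj' : ∀ z, |v z - u j z| < 1 / 2 := fun z => by
    have := (ContinuousMap.dist_apply_le_dist (f := v) (g := u j) z).trans_lt hj
    rwa [Real.dist_eq] at this
  have g0 : ∀ z ∈ C₀, u j z < -1 := fun z hz => by
    have := (abs_lt.1 (hj' z)).1
    have e : v z = -2 := by simp [v, hf0 hz]
    linarith
  have g1 : ∀ z ∈ C₁, 1 < u j z := fun z hz => by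
    have := (abs_lt.1 (hj' z)).2
    have e : v z = 2 := by
      have : f z = 1 := hf1 hz
      simp only [v, ContinuousMap.coe_mk, this]; norm_num
    linarith
  obtain ⟨A', B', hA', hB', hd', hcov⟩ := hsep i j
  obtain ⟨OA, hOA, hOA'⟩ := hc.isOpen_iff.1 (isOpen_interior (s := A'))
  obtain ⟨OB, hOB, hOB'⟩ := hc.isOpen_iff.1 (isOpen_interior (s := B'))
  let P : Set K := c '' interior A'
  let Q : Set K := c '' interior B'
  have hP : closure P ⊆ {z | u j z ≤ 1} ∩ OBᶜ := by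
    refine closure_minimal ?_
      ((isClosed_le (u j).continuous continuous_const).inter hOB.isClosed_compl)
    rintro _ ⟨x, hx, rfl⟩
    have hxA : x ∈ A' := interior_subset hx
    refine ⟨?_, fun hx' => ?_⟩
    · by_contra hcon
      simp only [mem_ofPred_eq, not_le] at hcon
      exact Set.disjoint_left.1 hd' hxA (hB' hcon.le)
    · have : x ∈ interior B' := hOB' ▸ hx'
      exact Set.disjoint_left.1 hd' hxA (interior_subset this)
  have hQ : closure Q ⊆ {z | -1 ≤ u j z} ∩ OAᶜ := by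
    refine closure_minimal ?_
      ((isClosed_le continuous_const (u j).continuous).inter hOA.isClosed_compl)
    rintro _ ⟨x, hx, rfl⟩
    have hxB : x ∈ B' := interior_subset hx
    refine ⟨?_, fun hx' => ?_⟩
    · by_contra hcon
      simp only [mem_ofPred_eq, not_le] at hcon
      exact Set.disjoint_left.1 hd' (hA' hcon.le) hxB
    · have : x ∈ interior A' := hOA' ▸ hx'
      exact Set.disjoint_left.1 hd' (interior_subset this) hxB
  have d1 : Disjoint (closure (C₀ ∪ P)) (C₁ ∪ Q) := by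
    rw [closure_union, h0.closure_eq]
    refine Set.disjoint_left.2 ?_
    rintro z (hz | hz) (hz' | hz')
    · exact Set.disjoint_left.1 hd hz hz'
    · have := (hQ (subset_closure hz')).1
      simp only [mem_ofPred_eq] at this
      linarith [g0 z hz]
    · have := (hP hz).1
      simp only [mem_ofPred_eq] at this
      linarith [g1 z hz']
    · obtain ⟨x, hx, rfl⟩ := hz'
      exact (hP hz).2 (show x ∈ c ⁻¹' OB from hOB'.symm ▸ hx)
  have d2 : Disjoint (C₀ ∪ P) (closure (C₁ ∪ Q)) := by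
    rw [closure_union, h1.closure_eq]
    refine Set.disjoint_left.2 ?_
    rintro z (hz | hz) (hz' | hz')
    · exact Set.disjoint_left.1 hd hz hz'
    · have := (hQ hz').1
      simp only [mem_ofPred_eq] at this
      linarith [g0 z hz]
    · have := (hP (subset_closure hz)).1
      simp only [mem_ofPred_eq] at this
      linarith [g1 z hz']
    · obtain ⟨x, hx, rfl⟩ := hz
      exact (hQ hz').2 (show x ∈ c ⁻¹' OA from hOA'.symm ▸ hx)
  obtain ⟨U₀, U₁, hU₀, hU₁, s0, s1, hdis⟩ :=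
    separatedNhds_iff_disjoint.2 (completely_normal d1 d2)
  refine ⟨U₀, U₁, hU₀, hU₁, hdis, subset_union_left.trans s0, subset_union_left.trans s1, ?_⟩
  rintro _ ⟨x, hx, rfl⟩
  rcases hcov hx with h2 | h2
  · exact Or.inl (s0 (Or.inr ⟨x, h2, rfl⟩))
  · exact Or.inr (s1 (Or.inr ⟨x, h2, rfl⟩))

end Pool.Agent.Lib.MP_068a93_gt
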