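import Mathlib

/-!
Covering dimension: upper bounds for compact sets with a triangular coordinate structure.
-/

set_option autoImplicit false

open Set Topology Metric

namespace Pool.Agent.Lib.MP_068a93_gt

/-- Covering dimension at most `k` (shrinking form). -/
def CovDim (S : Type) [TopologicalSpace S] (k : ℕ) : Prop :=
  ∀ (j : ℕ) (U : Fin j → Set S), (∀ i, IsOpen (U i)) → (⋃ i, U i) = Set.univ →
    ∃ V : Fin j → Set S, (∀ i, IsOpen (V i)) ∧ (∀ i, V i ⊆ U i) ∧
      (⋃ i, V i) = Set.univ ∧ ∀ x : S, Set.ncard {i : Fin j | x ∈ V i} ≤ k + 1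

/-- Every finite open cover has an open shrinking of order at most `k + 1` on `A`. -/
def SmallOn {Y : Type} [TopologicalSpace Y] (k : ℕ) (A : Set Y) : Prop :=
  ∀ (j : ℕ) (U : Fin j → Set Y), (∀ i, IsOpen (U i)) → (⋃ i, U i) = Set.univ →
    ∃ V : Fin j → Set Y, (∀ i, IsOpen (V i)) ∧ (∀ i, V i ⊆ U i) ∧
      (⋃ i, V i) = Set.univ ∧ ∀ x ∈ A, Set.ncard {i : Fin j | x ∈ V i} ≤ k + 1

/-- Coloured cubes in `ℝ^n`. -/
theorem exists_cubes (n : ℕ) {η : ℝ} (hη : 0 < η) :
    ∃ Q : Fin (n + 1) → (Fin n → ℤ) → Set (Fin n → ℝ),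
      (∀ c k, IsOpen (Q c k)) ∧
      (∀ c k k' x, x ∈ Q c k → x ∈ Q c k' → k = k') ∧
      (∀ x, ∃ c k, x ∈ Q c k) ∧
      (∀ c k x y, x ∈ Q c k → y ∈ Q c k → dist x y ≤ η) := by
  refine ⟨fun c k => {x | ∀ l, (k l : ℝ) < x l / η - (c : ℝ) / (n + 1) ∧
      x l / η - (c : ℝ) / (n + 1) < k l + 1}, ?_, ?_, ?_, ?_⟩
  · intro c k
    simp only [ofPred_forall]
    refine isOpen_iInter_of_finite fun l => ?_
    have hc : Continuous fun x : Fin n → ℝ => x l / η - (c : ℝ) / (n + 1) := by fun_prop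
    exact (isOpen_lt continuous_const hc).inter (isOpen_lt hc continuous_const)
  · intro c k k' x hx hx'
    funext l
    have h1 : ((k l : ℤ) : ℝ) < (k' l : ℝ) + 1 := (hx l).1.trans (hx' l).2
    have h2 : ((k' l : ℤ) : ℝ) < (k l : ℝ) + 1 := (hx' l).1.trans (hx l).2
    have h1' : k l < k' l + 1 := by exact_mod_cast h1
    have h2' : k' l < k l + 1 := by exact_mod_cast h2
    omega
  · intro x
    by_contra hcon
    push Not at hcon
    have key : ∀ c : Fin (n + 1), ∃ l : Fin n, ∃ z : ℤ,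
        x l / η - (c : ℝ) / (n + 1) = z := by
      intro c
      have := hcon c (fun l => ⌊x l / η - (c : ℝ) / (n + 1)⌋)
      simp only [mem_ofPred_eq, not_forall] at this
      obtain ⟨l, hl⟩ := this
      refine ⟨l, ⌊x l / η - (c : ℝ) / (n + 1)⌋, ?_⟩
      by_contra hne
      exact hl ⟨lt_of_le_of_ne (Int.floor_le _) (Ne.symm hne), Int.lt_floor_add_one _⟩
    choose l z hz using key
    obtain ⟨c, c', hcc', hl⟩ := Fintype.exists_ne_map_eq_of_card_lt l (by simp)
    have h1 := hz c
    have h2 := hz c'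
    rw [hl] at h1
    have hn : (0 : ℝ) < n + 1 := by positivity
    have h3 : ((c' : ℕ) : ℝ) - ((c : ℕ) : ℝ) = (z c - z c') * (n + 1) := by
      have : ((c' : ℕ) : ℝ) / (n + 1) - ((c : ℕ) : ℝ) / (n + 1) = z c - z c' := by linarith
      rw [← this]; field_simp
    have h4 : ((c' : ℕ) : ℤ) - ((c : ℕ) : ℤ) = (z c - z c') * (n + 1) := by exact_mod_cast h3
    have hc := c.2
    have hc' := c'.2
    have hne : (c : ℕ) ≠ c' := fun h => hcc' (Fin.ext h)
    rcases lt_trichotomy (z c - z c') 0 with h | h | h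
    · nlinarith
    · rw [h] at h4; omega
    · nlinarith
  · intro c k x y hx hy
    rw [dist_pi_le_iff hη.le]
    intro l
    have h1 := hx l
    have h2 := hy l
    rw [Real.dist_eq, abs_le]
    have e1 : x l = (x l / η) * η := by field_simp
    have e2 : y l = (y l / η) * η := by field_simp
    constructor <;> nlinarith [h1.1, h1.2, h2.1, h2.2]

variable {Y : Type} [TopologicalSpace Y]

theorem SmallOn.mono {k : ℕ} {A B : Set Y} (h : SmallOn k B) (hAB : A ⊆ B) : SmallOn k A := by
  intro j U hU hc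
  obtain ⟨V, h1, h2, h3, h4⟩ := h j U hU hc
  exact ⟨V, h1, h2, h3, fun x hx => h4 x (hAB hx)⟩

theorem smallOn_empty (k : ℕ) : SmallOn k (∅ : Set Y) := by
  intro j U hU hc
  exact ⟨U, hU, fun _ => Subset.rfl, hc, fun x hx => hx.elim⟩

theorem SmallOn.union {k : ℕ} {A B : Set Y} (hA : SmallOn k A) (hB : SmallOn k B) :
    SmallOn k (A ∪ B) := by
  intro j U hU hc
  obtain ⟨V, h1, h2, h3, h4⟩ := hA j U hU hc
  obtain ⟨W, g1, g2, g3, g4⟩ := hB j V h1 h3
  refine ⟨W, g1, fun i => (g2 i).trans (h2 i), g3, ?_⟩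
  rintro x (hx | hx)
  · refine le_trans (Set.ncard_le_ncard ?_ (Set.toFinite _)) (h4 x hx)
    intro i hi
    exact g2 i hi
  · exact g4 x hx

theorem smallOn_biUnion {k : ℕ} {α : Type} (s : Finset α) (A : α → Set Y)
    (h : ∀ a ∈ s, SmallOn k (A a)) : SmallOn k (⋃ a ∈ s, A a) := by
  classical
  induction s using Finset.induction_on with
  | empty => simpa using smallOn_empty k
  | insert a s ha ih =>
    rw [Finset.set_biUnion_insert]
    exact (h a (Finset.mem_insert_self _ _)).union
      (ih fun b hb => h b (Finset.mem_insert_of_mem hb))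

/-- A compact set that injects continuously into `ℝ^n` is small. -/
theorem smallOn_of_injOn [T2Space Y] {n : ℕ} {F : Set Y} (hF : IsCompact F)
    {p : Y → (Fin n → ℝ)} (hp : Continuous p) (hinj : InjOn p F) : SmallOn n F := by
  classical
  intro j U hU hc
  rcases F.eq_empty_or_nonempty with rfl | ⟨z0, hz0⟩
  · exact smallOn_empty n j U hU hc
  have hcov : ∀ z : Y, ∃ i, z ∈ U i := fun z => by
    have : z ∈ ⋃ i, U i := hc ▸ mem_univ z
    simpa using this
  obtain ⟨i0, -⟩ := hcov z0
  let O : Fin j → Set (Fin n → ℝ) := fun i => (p '' (F \ U i))ᶜ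
  have hO : ∀ i, IsOpen (O i) := fun i =>
    ((hF.diff (hU i)).image hp).isClosed.isOpen_compl
  have hOc : p '' F ⊆ ⋃ i, O i := by
    rintro _ ⟨z, hz, rfl⟩
    obtain ⟨i, hi⟩ := hcov z
    refine mem_iUnion.2 ⟨i, ?_⟩
    rintro ⟨w, hw, hwz⟩
    exact hw.2 (hinj hw.1 hz hwz ▸ hi)
  obtain ⟨δ, hδ, hleb⟩ := lebesgue_number_lemma_of_metric (hF.image hp) hO hOc
  obtain ⟨Q, hQo, hQd, hQc, hQs⟩ := exists_cubes n (half_pos hδ)
  have hidx : ∀ c k, ∃ i, ∀ z ∈ F, p z ∈ Q c k → z ∈ U i := by
    intro c k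
    by_cases h : ∃ z ∈ F, p z ∈ Q c k
    · obtain ⟨z, hz, hzQ⟩ := h
      obtain ⟨i, hi⟩ := hleb (p z) ⟨z, hz, rfl⟩
      refine ⟨i, fun w hw hwQ => ?_⟩
      by_contra hwU
      have : p w ∈ O i := hi (by
        rw [mem_ball]
        exact (hQs c k _ _ hwQ hzQ).trans_lt (half_lt_self hδ))
      exact this ⟨w, ⟨hw, hwU⟩, rfl⟩
    · push Not at h
      exact ⟨i0, fun z hz hzQ => (h z hz hzQ).elim⟩
  choose idx hidx using hidx
  refine ⟨fun i => (U i \ F) ∪ (U i ∩ p ⁻¹' (⋃ c, ⋃ k, ⋃ (_ : idx c k = i), Q c k)),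
    ?_, ?_, ?_, ?_⟩
  · intro i
    refine ((hU i).sdiff hF.isClosed).union ((hU i).inter (IsOpen.preimage hp ?_))
    exact isOpen_iUnion fun c => isOpen_iUnion fun k => isOpen_iUnion fun _ => hQo c k
  · intro i
    exact union_subset sdiff_subset inter_subset_left
  · rw [eq_univ_iff_forall]
    intro z
    by_cases hz : z ∈ F
    · obtain ⟨c, k, hck⟩ := hQc (p z)
      refine mem_iUnion.2 ⟨idx c k, Or.inr ⟨hidx c k z hz hck, ?_⟩⟩
      simp only [mem_preimage, mem_iUnion]
      exact ⟨c, k, rfl, hck⟩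
    · obtain ⟨i, hi⟩ := hcov z
      exact mem_iUnion.2 ⟨i, Or.inl ⟨hi, hz⟩⟩
  · intro x hx
    let κ : Fin (n + 1) → (Fin n → ℤ) := fun c =>
      if h : ∃ k, p x ∈ Q c k then h.choose else 0
    have hsub : {i : Fin j | x ∈ (U i \ F) ∪
        (U i ∩ p ⁻¹' (⋃ c, ⋃ k, ⋃ (_ : idx c k = i), Q c k))} ⊆
        (fun c => idx c (κ c)) '' univ := by
      rintro i (hi | hi)
      · exact (hi.2 hx).elim
      · have := hi.2
        simp only [mem_preimage, mem_iUnion] at this
        obtain ⟨c, k, hck, hQ⟩ := this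
        have hex : ∃ k, p x ∈ Q c k := ⟨k, hQ⟩
        refine ⟨c, mem_univ _, ?_⟩
        have : κ c = k := by
          simp only [κ, dif_pos hex]
          exact hQd c _ _ _ hex.choose_spec hQ
        simp only [this, hck]
    refine (Set.ncard_le_ncard hsub (Set.toFinite _)).trans ?_
    refine (Set.ncard_image_le (Set.toFinite _)).trans ?_
    simp

/-- Passing from a small set to a compact set whose remainder is locally small. -/
theorem SmallOn.of_diff [NormalSpace Y] {k : ℕ} {A B : Set Y} (hA : SmallOn k A)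
    (hB : IsCompact B) (h : ∀ F, IsCompact F → F ⊆ B \ A → SmallOn k F) : SmallOn k B := by
  intro j U hU hc
  obtain ⟨V, h1, h2, h3, h4⟩ := hA j U hU hc
  obtain ⟨W, hW1, hW2, hW3⟩ := exists_iUnion_eq_closure_subset h1 (fun x => Set.toFinite _) h3
  let N : Set Y := {x | Set.ncard {i : Fin j | x ∈ closure (W i)} ≤ k + 1}
  have hN : IsOpen N := by
    rw [isOpen_iff_mem_nhds]
    intro x hx
    have : ∀ᶠ y in 𝓝 x, ∀ i, x ∉ closure (W i) → y ∉ closure (W i) := by
      rw [Filter.eventually_all]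
      intro i
      by_cases hi : x ∈ closure (W i)
      · exact Filter.Eventually.of_forall fun y h => (h hi).elim
      · filter_upwards [isClosed_closure.isOpen_compl.mem_nhds hi] with y hy _ using hy
    filter_upwards [this] with y hy
    refine le_trans (Set.ncard_le_ncard ?_ (Set.toFinite _)) hx
    intro i hi
    by_contra hxi
    exact hy i hxi hi
  have hAN : A ⊆ N := by
    intro x hx
    refine le_trans (Set.ncard_le_ncard ?_ (Set.toFinite _)) (h4 x hx)
    intro i hi
    exact hW3 i hi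
  obtain ⟨Z, g1, g2, g3, g4⟩ := h (B \ N) (hB.diff hN)
    (fun x hx => ⟨hx.1, fun hxA => hx.2 (hAN hxA)⟩) j W hW2 hW1
  refine ⟨Z, g1, fun i => (g2 i).trans (subset_closure.trans ((hW3 i).trans (h2 i))), g3, ?_⟩
  intro x hx
  by_cases hxN : x ∈ N
  · refine le_trans (Set.ncard_le_ncard ?_ (Set.toFinite _)) hxN
    intro i hi
    exact subset_closure (g2 i hi)
  · exact g4 x ⟨hx, hxN⟩

/-- The triangular property for a family of real functions on `Y`: a function `t` and
functions `y i k`; where `y i n` is nonzero, the `y i k` with `k < n` are determined by `t`. -/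
def Triangular {m : ℕ} {ι : Type} [LinearOrder ι] {Y : Type} (t : Y → ℝ)
    (y : Fin m → ι → Y → ℝ) : Prop :=
  ∀ z z', t z = t z' → ∀ i n, y i n z ≠ 0 → y i n z' ≠ 0 → ∀ k < n, y i k z = y i k z'

/-- Finite version. -/
theorem covDim_of_triangular_finite [CompactSpace Y] [T2Space Y] {m : ℕ} {ι : Type}
    [LinearOrder ι] [Nonempty ι] (t : Y → ℝ) (y : Fin m → ι → Y → ℝ) (ht : Continuous t)
    (hy : ∀ i k, Continuous (y i k)) (htri : Triangular t y)
    (hsep : ∀ z z', t z = t z' → (∀ i k, y i k z = y i k z') → z = z')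
    (S : Finset (Fin m × ι)) (hS : ∀ i k, (i, k) ∉ S → ∀ z, y i k z = 0) :
    CovDim Y (m + 1) := by
  classical
  let G : Finset (Fin m × ι) → Set Y := fun r => {z | ∀ i k, (i, k) ∉ r → y i k z = 0}
  have hG : ∀ r, IsClosed (G r) := by
    intro r
    simp only [G, ofPred_forall]
    exact isClosed_iInter fun i => isClosed_iInter fun k => isClosed_iInter fun _ =>
      isClosed_eq (hy i k) continuous_const
  have main : ∀ r, SmallOn (m + 1) (G r) := by
    intro r
    induction r using Finset.strongInduction with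
    | H r ih =>
      have hA : SmallOn (m + 1) (⋃ a ∈ r, G (r.erase a)) :=
        smallOn_biUnion r _ fun a ha => ih _ (Finset.erase_ssubset ha)
      refine hA.of_diff (hG r).isCompact ?_
      intro F hF hFs
      have hmax : ∀ i : Fin m, ∃ n : ι, ∀ k, (i, k) ∈ r → (i, n) ∈ r ∧ k ≤ n := by
        intro i
        by_cases hne : (r.filter fun a => a.1 = i).Nonempty
        · obtain ⟨a, ha, hmax⟩ := (r.filter fun a => a.1 = i).exists_max_image Prod.snd hne
          rw [Finset.mem_filter] at ha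
          refine ⟨a.2, fun k hk => ⟨?_, hmax (i, k) (Finset.mem_filter.2 ⟨hk, rfl⟩)⟩⟩
          rw [← ha.2]; exact ha.1
        · refine ⟨Classical.arbitrary ι, fun k hk => (hne ⟨(i, k), ?_⟩).elim⟩
          exact Finset.mem_filter.2 ⟨hk, rfl⟩
      choose n hn using hmax
      let p : Y → (Fin (m + 1) → ℝ) := fun z => Fin.cons (t z) (fun i => y i (n i) z)
      have hp : Continuous p := by
        refine continuous_pi fun l => ?_
        refine Fin.cases ?_ (fun i => ?_) l
        · simpa [p] using ht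
        · simpa [p] using hy i (n i)
      have hact : ∀ z ∈ F, ∀ i k, (i, k) ∈ r → y i k z ≠ 0 := by
        intro z hz i k hik h0
        refine (hFs hz).2 ?_
        simp only [mem_iUnion]
        refine ⟨(i, k), hik, fun i' k' h' => ?_⟩
        by_cases he : (i', k') = (i, k)
        · obtain ⟨rfl, rfl⟩ := Prod.mk.inj he
          exact h0
        · exact (hFs hz).1 i' k' fun hr => h' (Finset.mem_erase.2 ⟨he, hr⟩)
      refine smallOn_of_injOn hF hp ?_
      intro z hz z' hz' hzz
      have h0 : t z = t z' := by simpa [p] using congrFun hzz 0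
      have h1 : ∀ i, y i (n i) z = y i (n i) z' := fun i => by
        simpa [p] using congrFun hzz i.succ
      refine hsep z z' h0 fun i k => ?_
      by_cases hik : (i, k) ∈ r
      · obtain ⟨hn1, hn2⟩ := hn i k hik
        rcases hn2.eq_or_lt with rfl | hlt
        · exact h1 i
        · exact htri z z' h0 i (n i) (hact z hz i _ hn1) (hact z' hz' i _ hn1) k hlt
      · rw [(hFs hz).1 i k hik, (hFs hz').1 i k hik]
  intro j U hU hc
  obtain ⟨V, h1, h2, h3, h4⟩ := main S j U hU hc
  exact ⟨V, h1, h2, h3, fun x => h4 x fun i k hik => hS i k hik x⟩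

/-- A compact Hausdorff space whose points are separated by a triangular family with `m`
colours has covering dimension at most `m + 1`. -/
theorem covDim_of_triangular [CompactSpace Y] [T2Space Y] {m : ℕ} {ι : Type}
    [LinearOrder ι] [Nonempty ι] (t : Y → ℝ) (y : Fin m → ι → Y → ℝ) (ht : Continuous t)
    (hy : ∀ i k, Continuous (y i k)) (htri : Triangular t y)
    (hsep : ∀ z z', t z = t z' → (∀ i k, y i k z = y i k z') → z = z') :
    CovDim Y (m + 1) := by
  classical
  intro j U hU hc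
  obtain ⟨W, hW1, hW2, hW3⟩ := exists_iUnion_eq_closure_subset hU (fun x => Set.toFinite _) hc
  -- a finite set of coordinates whose fibres refine the cover
  have hfin : ∃ S : Finset (Fin m × ι), ∀ z z' : Y, t z = t z' →
      (∀ a ∈ S, y a.1 a.2 z = y a.1 a.2 z') → ∀ i, z ∈ W i → z' ∈ U i := by
    let C : Set (Y × Y) := {w | t w.1 = t w.2} ∩ (⋃ i, closure (W i) ×ˢ (U i)ᶜ)
    have hC : IsCompact C := by
      refine IsClosed.isCompact ?_
      refine (isClosed_eq (ht.comp continuous_fst) (ht.comp continuous_snd)).inter ?_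
      exact isClosed_iUnion_of_finite fun i => isClosed_closure.prod (hU i).isClosed_compl
    let O : Fin m × ι → Set (Y × Y) := fun a => {w | y a.1 a.2 w.1 ≠ y a.1 a.2 w.2}
    have hO : ∀ a, IsOpen (O a) := fun a =>
      isOpen_ne_fun ((hy a.1 a.2).comp continuous_fst) ((hy a.1 a.2).comp continuous_snd)
    have hCO : C ⊆ ⋃ a, O a := by
      rintro ⟨z, z'⟩ ⟨h1, h2⟩
      by_contra hcon
      simp only [mem_iUnion, O, mem_ofPred_eq, not_exists, not_not] at hcon
      have : z = z' := hsep z z' h1 fun i k => hcon (i, k)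
      subst this
      obtain ⟨i, hi⟩ := mem_iUnion.1 h2
      exact hi.2 (hW3 i hi.1)
    obtain ⟨S, hS⟩ := hC.elim_finite_subcover O hO hCO
    refine ⟨S, fun z z' h1 h2 i hi => ?_⟩
    by_contra hcon
    have : (z, z') ∈ C := ⟨h1, mem_iUnion.2 ⟨i, subset_closure hi, hcon⟩⟩
    have := hS this
    simp only [mem_iUnion, O, mem_ofPred_eq] at this
    obtain ⟨a, ha, hne⟩ := this
    exact hne (h2 a ha)
  obtain ⟨S, hS⟩ := hfin
  let π : Y → ℝ × (Fin m × ι → ℝ) := fun z =>
    (t z, fun a => if a ∈ S then y a.1 a.2 z else 0)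
  have hπ : Continuous π := by
    refine ht.prodMk (continuous_pi fun a => ?_)
    by_cases ha : a ∈ S
    · simpa [ha] using hy a.1 a.2
    · simpa [ha] using continuous_const
  have : CompactSpace (range π) := isCompact_iff_compactSpace.1 (isCompact_range hπ)
  have hdim : CovDim (range π) (m + 1) := by
    refine covDim_of_triangular_finite (fun w => w.1.1) (fun i k w => w.1.2 (i, k))
      (by fun_prop) (fun i k => by fun_prop) ?_ ?_ S ?_
    · rintro ⟨_, z, rfl⟩ ⟨_, z', rfl⟩ h0 i n hn hn' k hk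
      simp only [π] at h0 hn hn' ⊢
      by_cases hnS : (i, n) ∈ S
      · simp only [hnS, if_true] at hn hn'
        by_cases hkS : (i, k) ∈ S
        · simp only [hkS, if_true]
          exact htri z z' h0 i n hn hn' k hk
        · simp [hkS]
      · simp [hnS] at hn
    · intro w w' h0 h1
      exact Subtype.ext (Prod.ext h0 (funext fun a => h1 a.1 a.2))
    · rintro i k hik ⟨_, z, rfl⟩
      simp [π, hik]
  let π' : Y → range π := rangeFactorization π
  have hπ' : Continuous π' := hπ.subtype_mk _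
  obtain ⟨V, h1, h2, h3, h4⟩ := hdim j (fun i => (π' '' (U i)ᶜ)ᶜ)
    (fun i => ((hU i).isClosed_compl.isCompact.image hπ').isClosed.isOpen_compl) (by
      rw [eq_univ_iff_forall]
      rintro ⟨_, z, rfl⟩
      have : z ∈ ⋃ i, W i := hW1 ▸ mem_univ z
      obtain ⟨i, hi⟩ := mem_iUnion.1 this
      refine mem_iUnion.2 ⟨i, ?_⟩
      rintro ⟨z', hz', he⟩
      have he' : π z' = π z := congrArg Subtype.val he
      refine hz' (hS z z' (congrArg Prod.fst he').symm (fun a ha => ?_) i hi)
      have := congrFun (congrArg Prod.snd he') a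
      simpa [π, ha] using this.symm)
  refine ⟨fun i => π' ⁻¹' V i, fun i => (h1 i).preimage hπ', ?_, ?_, fun x => h4 (π' x)⟩
  · intro i z hz
    by_contra hcon
    exact h2 i hz ⟨z, hcon, rfl⟩
  · rw [← preimage_iUnion, h3, preimage_univ]

end Pool.Agent.Lib.MP_068a93_gt
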