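import Pool.Agent.Lib.MP_068a93_gt.Decomp

/-!
Existence of a real function all of whose fibres are folded with respect to every pair of
disjoint closed sets (a Bing map), by the Baire category theorem.
-/

set_option autoImplicit false

open Set Topology Metric

namespace Pool.Agent.Lib.MP_068a93_gt

/-- The fibres of `g` are folded with respect to the level sets of `u`. -/
def Folds {K : Type} [TopologicalSpace K] (g u : K → ℝ) : Prop :=
  ∀ t : ℝ, ∃ (J : Set ℝ) (y : K → ℝ) (α β : ℝ), IsOpen J ∧ t ∈ J ∧ Continuous y ∧ α < β ∧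
    ∀ z, g z ∈ J → (y z = α → u z < -1 / 2) ∧ (y z = β → 1 / 2 < u z) ∧
      (u z ≤ -1 → β < y z) ∧ (1 ≤ u z → y z < α)

/-- The fibres of `g` are folded with respect to all pairs of closed sets. -/
def IsFolding {K : Type} [TopologicalSpace K] (g : K → ℝ) : Prop :=
  ∀ U₀ U₁ C₀ C₁ : Set K, IsOpen U₀ → IsOpen U₁ → Disjoint U₀ U₁ → IsClosed C₀ → IsClosed C₁ →
    C₀ ⊆ U₀ → C₁ ⊆ U₁ →
    ∀ t : ℝ, ∃ (J : Set ℝ) (y : K → ℝ) (α β : ℝ), IsOpen J ∧ t ∈ J ∧ Continuous y ∧ α < β ∧
      ∀ z, g z ∈ J → (y z = α → z ∈ U₀) ∧ (y z = β → z ∈ U₁) ∧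
        (z ∈ C₀ → β < y z) ∧ (z ∈ C₁ → y z < α)

variable {K : Type} [MetricSpace K] [CompactSpace K]

theorem exists_folds_near (u g₀ : C(K, ℝ)) {η : ℝ} (hη : 0 < η) :
    ∃ g₁ : C(K, ℝ), dist g₁ g₀ ≤ 4 * η ∧ ∀ g : C(K, ℝ), dist g g₁ < η → Folds g u := by
  let lam : ℝ → ℝ := fun s => 4 * s - max (-2) (min 2 (4 * s))
  let ψ : K → ℝ := fun z => max (-1) (min 1 (Real.cos (Real.pi * g₀ z / η) + lam (u z)))
  have hψ : Continuous ψ := by
    simp only [ψ, lam]
    fun_prop
  have hψ1 : ∀ z, |ψ z| ≤ 1 := fun z => by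
    rw [abs_le]
    exact ⟨le_max_left _ _, max_le (by norm_num) (min_le_left _ _)⟩
  have l1 : ∀ s, -1 / 2 ≤ s → 0 ≤ lam s := fun s hs => by
    have : max (-2) (min 2 (4 * s)) ≤ 4 * s := max_le (by linarith) (min_le_right _ _)
    simp only [lam]; linarith
  have l2 : ∀ s, s ≤ 1 / 2 → lam s ≤ 0 := fun s hs => by
    have : 4 * s ≤ max (-2) (min 2 (4 * s)) := le_max_of_le_right (le_min (by linarith) le_rfl)
    simp only [lam]; linarith
  have l3 : ∀ s, s ≤ -1 → lam s ≤ -2 := fun s hs => by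
    have : -2 ≤ max (-2) (min 2 (4 * s)) := le_max_left _ _
    simp only [lam]; linarith
  have l4 : ∀ s, 1 ≤ s → 2 ≤ lam s := fun s hs => by
    have : max (-2) (min 2 (4 * s)) ≤ 2 := max_le (by norm_num) (min_le_left _ _)
    simp only [lam]; linarith
  have p1 : ∀ z, 1 ≤ Real.cos (Real.pi * g₀ z / η) + lam (u z) → ψ z = 1 := fun z h => by
    simp only [ψ]
    rw [min_eq_left h, max_eq_right (by norm_num)]
  have p2 : ∀ z, Real.cos (Real.pi * g₀ z / η) + lam (u z) ≤ -1 → ψ z = -1 := fun z h => by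
    simp only [ψ]
    exact max_eq_left ((min_le_right _ _).trans h)
  refine ⟨⟨fun z => g₀ z + 4 * η * ψ z, by fun_prop⟩, ?_, fun g hg t => ?_⟩
  · rw [ContinuousMap.dist_le (by positivity)]
    intro z
    simp only [ContinuousMap.coe_mk, Real.dist_eq, add_sub_cancel_left, abs_mul]
    rw [abs_of_pos (by norm_num : (0 : ℝ) < 4), abs_of_pos hη]
    nlinarith [hψ1 z]
  · have hg' : ∀ z, |g z - (g₀ z + 4 * η * ψ z)| < η := fun z => by
      have := (ContinuousMap.dist_apply_le_dist (f := g) z).trans_lt hg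
      rwa [Real.dist_eq] at this
    let k : ℤ := ⌊t / (2 * η)⌋
    have hk1 : (k : ℝ) * (2 * η) ≤ t := by
      have := Int.floor_le (t / (2 * η))
      rwa [le_div_iff₀ (by positivity)] at this
    have hk2 : t < ((k : ℝ) + 1) * (2 * η) := by
      have := Int.lt_floor_add_one (t / (2 * η))
      rwa [div_lt_iff₀ (by positivity)] at this
    refine ⟨Ioo ((2 * k - 2) * η) ((2 * k + 3) * η), g₀, 2 * k * η, (2 * k + 1) * η, isOpen_Ioo,
      ⟨by nlinarith, by nlinarith⟩, g₀.continuous, by nlinarith, fun z hz => ?_⟩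
    have h1 := (abs_lt.1 (hg' z)).1
    have h2 := (abs_lt.1 (hg' z)).2
    have h3 := hz.1
    have h4 := hz.2
    refine ⟨fun h => ?_, fun h => ?_, fun h => ?_, fun h => ?_⟩
    · by_contra hcon
      push Not at hcon
      have hc : Real.cos (Real.pi * g₀ z / η) = 1 := by
        rw [h, show Real.pi * (2 * k * η) / η = k * (2 * Real.pi) by field_simp]
        exact Real.cos_int_mul_two_pi k
      have := p1 z (by linarith [l1 _ hcon])
      rw [this, h] at h1
      nlinarith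
    · by_contra hcon
      push Not at hcon
      have hc : Real.cos (Real.pi * g₀ z / η) = -1 := by
        rw [h, show Real.pi * ((2 * k + 1) * η) / η = k * (2 * Real.pi) + Real.pi by
          field_simp]
        exact Real.cos_int_mul_two_pi_add_pi k
      have := p2 z (by linarith [l2 _ hcon])
      rw [this, h] at h2
      nlinarith
    · have := p2 z (by linarith [l3 _ h, Real.cos_le_one (Real.pi * g₀ z / η)])
      rw [this] at h2
      nlinarith
    · have := p1 z (by linarith [l4 _ h, Real.neg_one_le_cos (Real.pi * g₀ z / η)])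
      rw [this] at h1
      nlinarith

theorem exists_isFolding : ∃ g : C(K, ℝ), IsFolding g := by
  obtain ⟨u, hu⟩ := TopologicalSpace.exists_dense_seq C(K, ℝ)
  have hd : Dense (⋂ j, interior {g : C(K, ℝ) | Folds g (u j)}) := by
    refine dense_iInter_of_isOpen (fun j => isOpen_interior) fun j => ?_
    rw [Metric.dense_iff]
    intro g₀ r hr
    obtain ⟨g₁, h1, h2⟩ := exists_folds_near (u j) g₀ (show 0 < r / 8 by positivity)
    refine ⟨g₁, mem_ball.2 (by linarith), ?_⟩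
    exact interior_maximal (fun g hg => h2 g hg) isOpen_ball
      (mem_ball_self (show 0 < r / 8 by positivity))
  obtain ⟨g, hg⟩ := hd.nonempty
  have hg' : ∀ j, Folds g (u j) := fun j => interior_subset (mem_iInter.1 hg j)
  refine ⟨g, fun U₀ U₁ C₀ C₁ hU₀ hU₁ hd hC₀ hC₁ s₀ s₁ t => ?_⟩
  obtain ⟨f₀, a0, b0, c0⟩ := exists_continuous_zero_one_of_isClosed hU₀.isClosed_compl hC₀
    (disjoint_compl_left_iff_subset.2 s₀)
  obtain ⟨f₁, a1, b1, c1⟩ := exists_continuous_zero_one_of_isClosed hU₁.isClosed_compl hC₁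
    (disjoint_compl_left_iff_subset.2 s₁)
  let v : C(K, ℝ) := ⟨fun z => 2 * f₁ z - 2 * f₀ z, by fun_prop⟩
  obtain ⟨j, hj⟩ := hu.exists_dist_lt v (show (0 : ℝ) < 1 / 2 by norm_num)
  have hj' : ∀ z, |2 * f₁ z - 2 * f₀ z - u j z| < 1 / 2 := fun z => by
    have := (ContinuousMap.dist_apply_le_dist (f := v) (g := u j) z).trans_lt hj
    rwa [Real.dist_eq] at this
  obtain ⟨J, y, α, β, hJ, htJ, hy, hαβ, H⟩ := hg' j t
  refine ⟨J, y, α, β, hJ, htJ, hy, hαβ, fun z hz => ?_⟩
  obtain ⟨H1, H2, H3, H4⟩ := H z hz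
  have e1 := (abs_lt.1 (hj' z)).1
  have e2 := (abs_lt.1 (hj' z)).2
  refine ⟨fun h => ?_, fun h => ?_, fun h => H3 ?_, fun h => H4 ?_⟩
  · by_contra hcon
    have : f₀ z = 0 := a0 hcon
    linarith [H1 h, (c1 z).1]
  · by_contra hcon
    have : f₁ z = 0 := a1 hcon
    linarith [H2 h, (c0 z).1]
  · have h0 : f₀ z = 1 := b0 h
    have h1 : f₁ z = 0 := a1 (Set.disjoint_left.1 hd (s₀ h))
    linarith
  · have h0 : f₁ z = 1 := b1 h
    have h1 : f₀ z = 0 := a0 (Set.disjoint_right.1 hd (s₁ h))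
    linarith

end Pool.Agent.Lib.MP_068a93_gt
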