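import Pool.Agent.Lib.MP_068a93_gt.Urysohn

/-!
A triangular family of functions with trivial fibres over a zero-dimensional set.
-/

set_option autoImplicit false

open Set Topology Metric Filter

namespace Pool.Agent.Lib.MP_068a93_gt

/-- Near `x`, the relation `Rl` holds between points with the same value of `g`. -/
def LocRel {K : Type} [TopologicalSpace K] (g : K → ℝ) (Rl : K → K → Prop) (x : K) : Prop :=
  ∃ O, IsOpen O ∧ x ∈ O ∧ ∀ w ∈ O, ∀ w' ∈ O, g w = g w' → Rl w w'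

theorem LocRel.and {K : Type} [TopologicalSpace K] {g : K → ℝ} {R R' : K → K → Prop} {x : K}
    (h : LocRel g R x) (h' : LocRel g R' x) : LocRel g (fun w w' => R w w' ∧ R' w w') x := by
  obtain ⟨O, h1, h2, h3⟩ := h
  obtain ⟨O', g1, g2, g3⟩ := h'
  exact ⟨O ∩ O', h1.inter g1, ⟨h2, g2⟩,
    fun w hw w' hw' e => ⟨h3 w hw.1 w' hw'.1 e, g3 w hw.2 w' hw'.2 e⟩⟩

variable {K : Type} [MetricSpace K] [CompactSpace K] {g : K → ℝ}

theorem IsFolding.exists_bump (hg : Continuous g) (hf : IsFolding g) {E : Set K}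
    (hE : ZeroDimIn E) {q : Set K} (hq : IsOpen q) :
    ∃ τ : K → ℝ, Continuous τ ∧ (∀ z, τ z ≠ 0 ↔ z ∈ q) ∧
      ∀ x ∈ E, x ∈ q → LocRel g (fun w w' => τ w = τ w') x := by
  obtain ⟨v, -, -, hv⟩ := exists_cozero hq
  have key : ∀ n : ℕ, ∃ φ : K → ℝ, Continuous φ ∧ (∀ z, φ z ∈ Icc (0 : ℝ) 1) ∧
      (∀ z ∉ q, φ z = 0) ∧ (∀ z, 1 / ((n : ℝ) + 1) ≤ v z → φ z = 1) ∧ ∀ z ∈ E, Reg g φ z := by
    intro n
    have hC : IsClosed {z | 1 / ((n : ℝ) + 1) ≤ v z} := isClosed_le continuous_const v.continuous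
    obtain ⟨U₀, U₁, hU₀, hU₁, hd, s₀, s₁, hcov⟩ := hE qᶜ _ hq.isClosed_compl hC
      (disjoint_compl_left_iff_subset.2 fun z hz =>
        (hv z).1 (lt_of_lt_of_le Nat.one_div_pos_of_nat hz))
    obtain ⟨φ, h1, h2, h3, h4, h5⟩ := hf.exists_urysohn hg hU₀ hU₁ hd hq.isClosed_compl hC s₀ s₁
    exact ⟨φ, h1, h2, h3, h4, fun z hz => h5 z (hcov hz)⟩
  choose φ h1 h2 h3 h4 h5 using key
  have hb : ∀ n z, ‖φ n z * (1 / 2 : ℝ) ^ n‖ ≤ (1 / 2 : ℝ) ^ n := by
    intro n z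
    have : (0 : ℝ) ≤ (1 / 2) ^ n := by positivity
    rw [Real.norm_eq_abs, abs_of_nonneg (mul_nonneg (h2 n z).1 this)]
    nlinarith [(h2 n z).2]
  have hs : ∀ z, Summable fun n => φ n z * (1 / 2 : ℝ) ^ n := fun z =>
    summable_geometric_two.of_norm_bounded fun n => hb n z
  refine ⟨fun z => ∑' n, φ n z * (1 / 2 : ℝ) ^ n,
    continuous_tsum (fun n => (h1 n).mul continuous_const) summable_geometric_two hb,
    fun z => ⟨fun h => ?_, fun h => ?_⟩, fun x hx hxq => ?_⟩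
  · by_contra hz
    exact h (by simp [fun n => h3 n z hz])
  · obtain ⟨n, hn⟩ := exists_nat_one_div_lt ((hv z).2 h)
    refine ne_of_gt ((hs z).tsum_pos (fun k => mul_nonneg (h2 k z).1 (by positivity)) n ?_)
    rw [h4 n z hn.le]
    positivity
  · obtain ⟨n, hn⟩ := exists_nat_one_div_lt ((hv x).2 hxq)
    choose O a1 a2 a3 a4 using fun k => h5 k x hx
    refine ⟨{z | 1 / ((n : ℝ) + 1) < v z} ∩ ⋂ k ∈ Finset.range n, O k,
      (isOpen_lt continuous_const v.continuous).inter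
        (isOpen_biInter_finset fun k _ => a1 k), ⟨hn, mem_iInter₂.2 fun k _ => a2 k⟩, ?_⟩
    intro w hw w' hw' e
    refine tsum_congr fun k => ?_
    by_cases hk : k < n
    · rw [a4 k w (mem_iInter₂.1 hw.2 k (Finset.mem_range.2 hk)) w'
        (mem_iInter₂.1 hw'.2 k (Finset.mem_range.2 hk)) e]
    · have hle : 1 / ((k : ℝ) + 1) ≤ 1 / ((n : ℝ) + 1) := Nat.one_div_le_one_div (not_lt.1 hk)
      rw [h4 k w (hle.trans (le_of_lt hw.1)), h4 k w' (hle.trans (le_of_lt hw'.1))]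

theorem IsFolding.exists_level (hg : Continuous g) (hf : IsFolding g) {E : Set K}
    (hE : ZeroDimIn E) {Rl : K → K → Prop} (hR : ∀ x ∈ E, LocRel g Rl x) {ε : ℝ} (hε : 0 < ε) :
    ∃ ψ : ℕ → K → ℝ, (∀ n, Continuous (ψ n)) ∧
      (∀ n n' z, ψ n z ≠ 0 → ψ n' z ≠ 0 → n = n') ∧
      (∀ n z z', ψ n z ≠ 0 → ψ n z' ≠ 0 → dist z z' ≤ ε ∧ (g z = g z' → Rl z z')) ∧
      (∀ x ∈ E, ∃ n, ψ n x ≠ 0) ∧
      ∀ x ∈ E, LocRel g (fun w w' => ∀ n, ψ n w = ψ n w') x := by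
  let 𝒢 : Set (Set K) := {G | IsOpen G ∧ (∀ x ∈ E, x ∈ closure G → x ∈ G) ∧
    ∀ z ∈ G, ∀ z' ∈ G, dist z z' ≤ ε ∧ (g z = g z' → Rl z z')}
  have h𝒢 : ∀ x ∈ E, ∃ G ∈ 𝒢, x ∈ G := by
    intro x hx
    obtain ⟨O, h1, h2, h3⟩ := hR x hx
    have hO' : IsOpen (O ∩ ball x (ε / 2)) := h1.inter isOpen_ball
    have hxO' : x ∈ O ∩ ball x (ε / 2) := ⟨h2, mem_ball_self (half_pos hε)⟩
    obtain ⟨U₀, U₁, hU₀, hU₁, hd, s₀, s₁, hcov⟩ := hE {x} _ isClosed_singleton hO'.isClosed_compl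
      (disjoint_compl_right_iff_subset.2 (singleton_subset_iff.2 hxO'))
    have hsub : U₀ ⊆ O ∩ ball x (ε / 2) := fun z hz => by
      by_contra hcon
      exact Set.disjoint_left.1 hd hz (s₁ hcon)
    refine ⟨U₀, ⟨hU₀, fun y hy hyc => ?_, fun z hz z' hz' => ⟨?_, ?_⟩⟩, s₀ rfl⟩
    · rcases hcov hy with h | h
      · exact h
      · exact (Set.disjoint_left.1 (hd.closure_left hU₁) hyc h).elim
    · have a := mem_ball.1 (hsub hz).2
      have b := mem_ball.1 (hsub hz').2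
      linarith [dist_triangle_right z z' x]
    · exact h3 z (hsub hz).1 z' (hsub hz').1
  obtain ⟨T, hTc, hT𝒢, hTU⟩ := TopologicalSpace.isOpen_sUnion_countable 𝒢 fun G hG => hG.1
  have hempty : (∅ : Set K) ∈ 𝒢 := ⟨isOpen_empty, by simp, by simp⟩
  obtain ⟨G, hG⟩ := (hTc.insert ∅).exists_eq_range (insert_nonempty _ _)
  have hG𝒢 : ∀ n, G n ∈ 𝒢 := fun n => by
    have : G n ∈ insert ∅ T := hG ▸ mem_range_self n
    rcases this with h | h
    · rw [h]; exact hempty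
    · exact hT𝒢 h
  have hGc : ∀ x ∈ E, ∃ n, x ∈ G n := by
    intro x hx
    obtain ⟨G', h1, h2⟩ := h𝒢 x hx
    have : x ∈ ⋃₀ T := hTU ▸ ⟨G', h1, h2⟩
    obtain ⟨G'', h3, h4⟩ := this
    have : G'' ∈ range G := hG ▸ mem_insert_of_mem _ h3
    obtain ⟨n, rfl⟩ := this
    exact ⟨n, h4⟩
  let q : ℕ → Set K := fun n => G n \ ⋃ k ∈ Finset.range n, closure (G k)
  have hq : ∀ n, IsOpen (q n) := fun n =>
    (hG𝒢 n).1.sdiff (isClosed_biUnion_finset fun k _ => isClosed_closure)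
  have hqd : ∀ n n' z, z ∈ q n → z ∈ q n' → n = n' := by
    intro n n' z h h'
    rcases lt_trichotomy n n' with hlt | heq | hlt
    · exact (h'.2 (mem_iUnion₂.2 ⟨n, Finset.mem_range.2 hlt, subset_closure h.1⟩)).elim
    · exact heq
    · exact (h.2 (mem_iUnion₂.2 ⟨n', Finset.mem_range.2 hlt, subset_closure h'.1⟩)).elim
  have hqc : ∀ x ∈ E, ∃ n, x ∈ q n := by
    classical
    intro x hx
    have hex := hGc x hx
    refine ⟨Nat.find hex, Nat.find_spec hex, fun h => ?_⟩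
    obtain ⟨k, hk, hxk⟩ := mem_iUnion₂.1 h
    exact Nat.find_min hex (Finset.mem_range.1 hk) ((hG𝒢 k).2.1 x hx hxk)
  choose τ a1 a2 a3 using fun n => hf.exists_bump hg hE (hq n)
  refine ⟨τ, a1, fun n n' z h h' => hqd n n' z ((a2 n z).1 h) ((a2 n' z).1 h'),
    fun n z z' h h' => (hG𝒢 n).2.2 z ((a2 n z).1 h).1 z' ((a2 n z').1 h').1,
    fun x hx => ?_, fun x hx => ?_⟩
  · obtain ⟨n, hn⟩ := hqc x hx
    exact ⟨n, (a2 n x).2 hn⟩
  · obtain ⟨n, hn⟩ := hqc x hx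
    obtain ⟨O, b1, b2, b3⟩ := a3 n x hx hn
    refine ⟨O ∩ q n, b1.inter (hq n), ⟨b2, hn⟩, fun w hw w' hw' e k => ?_⟩
    by_cases hk : k = n
    · rw [hk]; exact b3 w hw.1 w' hw'.1 e
    · have c1 : τ k w = 0 := by
        by_contra h
        exact hk (hqd k n w ((a2 k w).1 h) hw.2)
      have c2 : τ k w' = 0 := by
        by_contra h
        exact hk (hqd k n w' ((a2 k w').1 h) hw'.2)
      rw [c1, c2]

theorem IsFolding.exists_triangular (hg : Continuous g) (hf : IsFolding g) {E : Set K}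
    (hE : ZeroDimIn E) :
    ∃ ψ : ℕ ×ₗ ℕ → K → ℝ, (∀ n, Continuous (ψ n)) ∧
      (∀ z z', g z = g z' → ∀ n, ψ n z ≠ 0 → ψ n z' ≠ 0 → ∀ k < n, ψ k z = ψ k z') ∧
      ∀ x ∈ E, ∀ z, (∀ n, ψ n z = ψ n x) → z = x := by
  let St := {Rl : K → K → Prop // ∀ x ∈ E, LocRel g Rl x}
  choose lv b1 b2 b3 b4 b5 using fun (k : ℕ) (s : St) =>
    hf.exists_level hg hE s.2 (Nat.one_div_pos_of_nat (α := ℝ) (n := k))
  let nxt : ℕ → St → St := fun k s =>
    ⟨fun w w' => s.1 w w' ∧ ∀ n, lv k s n w = lv k s n w',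
      fun x hx => (s.2 x hx).and (b5 k s x hx)⟩
  let s0 : St := ⟨fun _ _ => True, fun x _ => ⟨univ, isOpen_univ, mem_univ _,
    fun _ _ _ _ _ => trivial⟩⟩
  let sq : ℕ → St := fun k => Nat.rec s0 nxt k
  have hsq : ∀ k w w', (sq k).1 w w' → ∀ j < k, ∀ n, lv j (sq j) n w = lv j (sq j) n w' := by
    intro k w w'
    induction k with
    | zero => intro _ j hj; omega
    | succ k ih =>
      intro h j hj n
      have h' : (sq k).1 w w' ∧ ∀ n, lv k (sq k) n w = lv k (sq k) n w' := h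
      rcases Nat.lt_succ_iff_lt_or_eq.1 hj with hlt | rfl
      · exact ih h'.1 j hlt n
      · exact h'.2 n
  refine ⟨fun a => lv (ofLex a).1 (sq (ofLex a).1) (ofLex a).2, fun a => b1 _ _ _, ?_, ?_⟩
  · intro z z' e a ha ha' b hb
    rcases Prod.Lex.lt_iff.1 hb with hlt | ⟨heq, hlt⟩
    · exact hsq _ z z' ((b3 _ _ _ z z' ha ha').2 e) _ hlt _
    · simp only
      rw [heq]
      have c1 : lv (ofLex a).1 (sq (ofLex a).1) (ofLex b).2 z = 0 := by
        by_contra h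
        exact hlt.ne (b2 _ _ _ _ z h ha)
      have c2 : lv (ofLex a).1 (sq (ofLex a).1) (ofLex b).2 z' = 0 := by
        by_contra h
        exact hlt.ne (b2 _ _ _ _ z' h ha')
      rw [c1, c2]
  · intro x hx z hz
    refine eq_of_forall_dist_le fun ε hε => ?_
    obtain ⟨k, hk⟩ := exists_nat_one_div_lt hε
    obtain ⟨n, hn⟩ := b4 k (sq k) x hx
    have := hz (toLex (k, n))
    simp only [ofLex_toLex] at this
    exact (b3 k (sq k) n z x (this ▸ hn) hn).1.trans hk.le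

/-- Main theorem: if `X` has covering dimension at most `m` and is a subspace of a compact metric
space `K`, there is a map of `K` onto a compact metrizable space of dimension at most `m + 2`
with trivial fibres over `X`. -/
theorem exists_map {X : Type} [TopologicalSpace X] [PerfectlyNormalSpace X] {m : ℕ}
    (h : CovDim X m) {c : X → K} (hc : IsInducing c) :
    ∃ F : K → ℝ × (Fin (m + 1) → ℕ ×ₗ ℕ → ℝ), Continuous F ∧
      (∀ x z, F z = F (c x) → z = c x) ∧ CovDim (range F) (m + 2) := by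
  obtain ⟨E, hE1, hE2⟩ := h.exists_decomp hc
  obtain ⟨g, hg⟩ := exists_isFolding (K := K)
  choose ψ a1 a2 a3 using fun i => hg.exists_triangular g.continuous (hE2 i)
  let F : K → ℝ × (Fin (m + 1) → ℕ ×ₗ ℕ → ℝ) := fun z => (g z, fun i n => ψ i n z)
  have hF : Continuous F :=
    g.continuous.prodMk (continuous_pi fun i => continuous_pi fun n => a1 i n)
  refine ⟨F, hF, fun x z e => ?_, ?_⟩
  · obtain ⟨i, hi⟩ := hE1 x
    exact a3 i _ hi z fun n => congrFun (congrFun (congrArg Prod.snd e) i) n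
  · have : CompactSpace (range F) := isCompact_iff_compactSpace.1 (isCompact_range hF)
    refine covDim_of_triangular (ι := ℕ ×ₗ ℕ) (fun w => w.1.1) (fun i k w => w.1.2 i k)
      (by fun_prop) (fun i k => by fun_prop) ?_ ?_
    · rintro ⟨_, z, rfl⟩ ⟨_, z', rfl⟩ e i n hn hn' k hk
      exact a2 i z z' e n hn hn' k hk
    · intro w w' h0 h1
      exact Subtype.ext (Prod.ext h0 (funext fun i => funext fun k => h1 i k))

end Pool.Agent.Lib.MP_068a93_gt
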