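import Pool.Agent.Lib.MP_068a93_gt.Fold

/-!
For a folding map `g` and a partition, a Urysohn function that is locally determined by `g` off
the partition.
-/

set_option autoImplicit false

open Set Topology Metric Filter

namespace Pool.Agent.Lib.MP_068a93_gt

/-- `f` is continuous and determined by `g` near `z`. -/
def Reg {K : Type} [TopologicalSpace K] (g f : K → ℝ) (z : K) : Prop :=
  ∃ O, IsOpen O ∧ z ∈ O ∧ ContinuousOn f O ∧ ∀ w ∈ O, ∀ w' ∈ O, g w = g w' → f w = f w'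

section Basic

variable {K : Type} [TopologicalSpace K] {g : K → ℝ}

theorem Reg.binop {f f' : K → ℝ} {z : K} (φ : ℝ × ℝ → ℝ) (hφ : Continuous φ) (h : Reg g f z)
    (h' : Reg g f' z) : Reg g (fun w => φ (f w, f' w)) z := by
  obtain ⟨O, h1, h2, h3, h4⟩ := h
  obtain ⟨O', g1, g2, g3, g4⟩ := h'
  refine ⟨O ∩ O', h1.inter g1, ⟨h2, g2⟩, ?_, fun w hw w' hw' e => ?_⟩
  · exact hφ.comp_continuousOn ((h3.mono inter_subset_left).prodMk (g3.mono inter_subset_right))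
  · simp only [h4 w hw.1 w' hw'.1 e, g4 w hw.2 w' hw'.2 e]

theorem Reg.add {f f' : K → ℝ} {z : K} (h : Reg g f z) (h' : Reg g f' z) :
    Reg g (fun w => f w + f' w) z :=
  Reg.binop (fun p => p.1 + p.2) (by fun_prop) h h'

theorem Reg.sub {f f' : K → ℝ} {z : K} (h : Reg g f z) (h' : Reg g f' z) :
    Reg g (fun w => f w - f' w) z :=
  Reg.binop (fun p => p.1 - p.2) (by fun_prop) h h'

theorem Reg.mul {f f' : K → ℝ} {z : K} (h : Reg g f z) (h' : Reg g f' z) :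
    Reg g (fun w => f w * f' w) z :=
  Reg.binop (fun p => p.1 * p.2) (by fun_prop) h h'

theorem Reg.congr {f f' : K → ℝ} {z : K} (h : Reg g f z) (e : ∀ᶠ w in 𝓝 z, f w = f' w) :
    Reg g f' z := by
  obtain ⟨O, h1, h2, h3, h4⟩ := h
  obtain ⟨O', g1, g2, g3⟩ := eventually_nhds_iff.1 e
  refine ⟨O ∩ O', h1.inter g2, ⟨h2, g3⟩, ?_, fun w hw w' hw' e => ?_⟩
  · exact (h3.mono inter_subset_left).congr fun w hw => (g1 w hw.2).symm
  · rw [← g1 w hw.2, ← g1 w' hw'.2, h4 w hw.1 w' hw'.1 e]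

theorem reg_const (a : ℝ) (z : K) : Reg g (fun _ => a) z :=
  ⟨univ, isOpen_univ, mem_univ _, continuousOn_const, fun _ _ _ _ _ => rfl⟩

theorem reg_comp (hg : Continuous g) {h : ℝ → ℝ} (hh : Continuous h) (z : K) :
    Reg g (fun w => h (g w)) z :=
  ⟨univ, isOpen_univ, mem_univ _, (hh.comp hg).continuousOn, fun _ _ _ _ e => congrArg h e⟩

theorem reg_sum {α : Type} (s : Finset α) (f : α → K → ℝ) {z : K} (h : ∀ a ∈ s, Reg g (f a) z) :
    Reg g (fun w => ∑ a ∈ s, f a w) z := by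
  classical
  induction s using Finset.induction_on with
  | empty => simpa using reg_const 0 z
  | insert a s ha ih =>
    simp only [Finset.sum_insert ha]
    exact (h a (Finset.mem_insert_self _ _)).add
      (ih fun b hb => h b (Finset.mem_insert_of_mem hb))

theorem isOpen_reg (f : K → ℝ) : IsOpen {z | Reg g f z} := by
  rw [isOpen_iff_forall_mem_open]
  rintro z ⟨O, h1, h2, h3, h4⟩
  exact ⟨O, fun w hw => ⟨O, h1, hw, h3, h4⟩, h1, h2⟩

theorem Reg.continuousAt {f : K → ℝ} {z : K} (h : Reg g f z) : ContinuousAt f z := by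
  obtain ⟨O, h1, h2, h3, -⟩ := h
  exact h3.continuousAt (h1.mem_nhds h2)

theorem reg_ite {y : K → ℝ} (hy : Continuous y) {β : ℝ} (a b : ℝ) {z : K} (hz : y z ≠ β) :
    Reg g (fun w => if y w < β then a else b) z := by
  rcases lt_or_gt_of_ne hz with h | h
  · refine (reg_const a z).congr ?_
    filter_upwards [(isOpen_lt hy continuous_const).mem_nhds h] with w hw
    exact (if_pos hw).symm
  · refine (reg_const b z).congr ?_
    filter_upwards [(isOpen_lt continuous_const hy).mem_nhds h] with w hw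
    exact (if_neg (not_lt.2 (le_of_lt hw))).symm

end Basic

variable {K : Type} [MetricSpace K] [CompactSpace K] {g : K → ℝ}

/-- One fold. -/
theorem IsFolding.exists_fold (hg : Continuous g) (hf : IsFolding g) {U₀ U₁ C₀ C₁ : Set K}
    (hU₀ : IsOpen U₀) (hU₁ : IsOpen U₁) (hd : Disjoint U₀ U₁) (hC₀ : IsClosed C₀)
    (hC₁ : IsClosed C₁) (s₀ : C₀ ⊆ U₀) (s₁ : C₁ ⊆ U₁) :
    ∃ p r : K → ℝ, (∀ z, |p z| ≤ 1) ∧ (∀ z, |r z - p z| ≤ 1 / 3) ∧ (∀ z ∈ C₀, p z = 0) ∧
      (∀ z ∈ C₁, r z = 1) ∧ (∀ z ∉ U₁, Reg g p z) ∧ (∀ z ∉ U₀, Reg g r z) := by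
  choose J y α β hJ htJ hy hαβ H using hf U₀ U₁ C₀ C₁ hU₀ hU₁ hd hC₀ hC₁ s₀ s₁
  obtain ⟨T, hT⟩ := (isCompact_range hg).elim_finite_subcover J hJ
    (fun t _ => mem_iUnion.2 ⟨t, htJ t⟩)
  let e : Fin T.card → ℝ := fun k => (T.equivFin.symm k : ℝ)
  have hcov : range g ⊆ ⋃ k, J (e k) := by
    intro t ht
    have := hT ht
    simp only [mem_iUnion] at this
    obtain ⟨a, ha, hta⟩ := this
    exact mem_iUnion.2 ⟨T.equivFin ⟨a, ha⟩, by simpa [e] using hta⟩
  obtain ⟨ρ, hρ1, hρ2, hρ3, -⟩ := exists_continuous_sum_one_of_isOpen_isCompact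
    (fun k => hJ (e k)) (isCompact_range hg) hcov
  have hsum : ∀ z, ∑ k, ρ k (g z) = 1 := fun z => by
    have := hρ2 (mem_range_self z)
    simpa [Finset.sum_apply] using this
  have hzero : ∀ k z, g z ∉ J (e k) → ρ k (g z) = 0 := fun k z hz =>
    image_eq_zero_of_notMem_tsupport fun h => hz (hρ1 k h)
  have hbound : ∀ (a : Fin T.card → ℝ) (b : ℝ) (z : K), (∀ k, |a k| ≤ b) →
      |∑ k, ρ k (g z) * a k| ≤ b := by
    intro a b z ha
    refine (Finset.abs_sum_le_sum_abs _ _).trans ?_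
    calc ∑ k, |ρ k (g z) * a k| ≤ ∑ k, ρ k (g z) * b := by
          refine Finset.sum_le_sum fun k _ => ?_
          rw [abs_mul, abs_of_nonneg (hρ3 k _).1]
          exact mul_le_mul_of_nonneg_left (ha k) (hρ3 k _).1
      _ = b := by rw [← Finset.sum_mul, hsum, one_mul]
  have hreg : ∀ (γ : Fin T.card → ℝ) (a b : ℝ) (z : K),
      (∀ k, g z ∈ J (e k) → y (e k) z ≠ γ k) →
      Reg g (fun w => ∑ k, ρ k (g w) * (if y (e k) w < γ k then a else b)) z := by
    intro γ a b z hz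
    refine reg_sum _ _ fun k _ => ?_
    by_cases hk : g z ∈ J (e k)
    · exact (reg_comp hg (ρ k).continuous z).mul (reg_ite (hy _) a b (hz k hk))
    · refine (reg_const 0 z).congr ?_
      have : g z ∈ (tsupport (ρ k))ᶜ := fun h => hk (hρ1 k h)
      filter_upwards [((isClosed_tsupport (ρ k)).isOpen_compl.preimage hg).mem_nhds this]
        with w hw
      rw [image_eq_zero_of_notMem_tsupport hw, zero_mul]
  refine ⟨fun w => ∑ k, ρ k (g w) * (if y (e k) w < β (e k) then 2 / 3 else 0),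
    fun w => ∑ k, ρ k (g w) * (if y (e k) w < α (e k) then 1 else 1 / 3),
    fun z => ?_, fun z => ?_, fun z hz => ?_, fun z hz => ?_, fun z hz => ?_, fun z hz => ?_⟩
  · refine hbound _ _ z fun k => ?_
    split_ifs <;> norm_num [abs_le]
  · simp only
    rw [← Finset.sum_sub_distrib]
    simp only [← mul_sub]
    refine hbound _ _ z fun k => ?_
    have := hαβ (e k)
    split_ifs with h1 h2 h2
    · norm_num [abs_le]
    · exact (h2 (h1.trans this)).elim
    · norm_num [abs_le]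
    · norm_num [abs_le]
  · refine Finset.sum_eq_zero fun k _ => ?_
    by_cases hk : g z ∈ J (e k)
    · rw [if_neg (not_lt.2 ((H _ z hk).2.2.1 hz).le), mul_zero]
    · rw [hzero k z hk, zero_mul]
  · refine Eq.trans (Finset.sum_congr rfl fun k _ => ?_) (hsum z)
    by_cases hk : g z ∈ J (e k)
    · rw [if_pos ((H _ z hk).2.2.2 hz), mul_one]
    · rw [hzero k z hk, zero_mul]
  · exact hreg _ _ _ z fun k hk h => hz ((H _ z hk).2.1 h)
  · exact hreg _ _ _ z fun k hk h => hz ((H _ z hk).1 h)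

theorem IsFolding.step (hg : Continuous g) (hf : IsFolding g) {U₀ U₁ D₀ D₁ : Set K}
    (hU₀ : IsOpen U₀) (hU₁ : IsOpen U₁) (hd : Disjoint U₀ U₁) (hD₀ : IsClosed D₀)
    (hD₁ : IsClosed D₁) (s₀ : D₀ ⊆ U₀) (s₁ : D₁ ⊆ U₁) {P R : K → ℝ}
    (hP : ∀ z ∉ U₁, Reg g P z) (hR : ∀ z ∉ U₀, Reg g R z) :
    ∃ P' R' : K → ℝ, (∀ z ∉ U₁, Reg g P' z) ∧ (∀ z ∉ U₀, Reg g R' z) ∧
      (∀ z, |R' z - P' z| ≤ |R z - P z| / 3) ∧ (∀ z, |P' z - P z| ≤ |R z - P z|) ∧
      (∀ z ∈ D₀, P' z = P z) ∧ (∀ z ∈ D₁, R' z = R z) := by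
  let O : Set K := {z | Reg g P z} ∩ {z | Reg g R z}
  have hO : IsOpen O := (isOpen_reg P).inter (isOpen_reg R)
  obtain ⟨V₀, hV₀, a₀, b₀⟩ := normal_exists_closure_subset
    ((hU₁.isClosed_compl.sdiff hO).union hD₀) hU₀ (by
      rintro z (⟨h1, h2⟩ | h)
      · by_contra hcon
        exact h2 ⟨hP z h1, hR z hcon⟩
      · exact s₀ h)
  obtain ⟨V₁, hV₁, a₁, b₁⟩ := normal_exists_closure_subset
    ((hU₀.isClosed_compl.sdiff hO).union hD₁) hU₁ (by
      rintro z (⟨h1, h2⟩ | h)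
      · by_contra hcon
        exact h2 ⟨hP z hcon, hR z h1⟩
      · exact s₁ h)
  obtain ⟨p, r, h1, h2, h3, h4, h5, h6⟩ := hf.exists_fold hg hU₀ hU₁ hd isClosed_closure
    isClosed_closure b₀ b₁
  refine ⟨fun z => P z + (R z - P z) * p z, fun z => P z + (R z - P z) * r z,
    fun z hz => ?_, fun z hz => ?_, fun z => ?_, fun z => ?_, fun z hz => ?_, fun z hz => ?_⟩
  · by_cases hzO : z ∈ O
    · exact hzO.1.add ((hzO.2.sub hzO.1).mul (h5 z hz))
    · refine (hP z hz).congr ?_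
      filter_upwards [hV₀.mem_nhds (a₀ (Or.inl ⟨hz, hzO⟩))] with w hw
      rw [h3 w (subset_closure hw)]; ring
  · by_cases hzO : z ∈ O
    · exact hzO.1.add ((hzO.2.sub hzO.1).mul (h6 z hz))
    · refine (hR z hz).congr ?_
      filter_upwards [hV₁.mem_nhds (a₁ (Or.inl ⟨hz, hzO⟩))] with w hw
      rw [h4 w (subset_closure hw)]; ring
  · have : P z + (R z - P z) * r z - (P z + (R z - P z) * p z) = (R z - P z) * (r z - p z) := by
      ring
    simp only
    rw [this, abs_mul]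
    nlinarith [h2 z, abs_nonneg (R z - P z)]
  · simp only [add_sub_cancel_left]
    rw [abs_mul]
    nlinarith [h1 z, abs_nonneg (R z - P z)]
  · simp only
    rw [h3 z (subset_closure (a₀ (Or.inr hz)))]; ring
  · simp only
    rw [h4 z (subset_closure (a₁ (Or.inr hz)))]; ring

/-- A Urysohn function that is locally determined by `g` off a given partition. -/
theorem IsFolding.exists_urysohn (hg : Continuous g) (hf : IsFolding g) {U₀ U₁ C₀ C₁ : Set K}
    (hU₀ : IsOpen U₀) (hU₁ : IsOpen U₁) (hd : Disjoint U₀ U₁) (hC₀ : IsClosed C₀)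
    (hC₁ : IsClosed C₁) (s₀ : C₀ ⊆ U₀) (s₁ : C₁ ⊆ U₁) :
    ∃ φ : K → ℝ, Continuous φ ∧ (∀ z, φ z ∈ Icc (0 : ℝ) 1) ∧ (∀ z ∈ C₀, φ z = 0) ∧
      (∀ z ∈ C₁, φ z = 1) ∧ ∀ z ∈ U₀ ∪ U₁, Reg g φ z := by
  obtain ⟨v₀, -, -, hv₀⟩ := exists_cozero hU₀
  obtain ⟨v₁, -, -, hv₁⟩ := exists_cozero hU₁
  let D₀ : ℕ → Set K := fun n => C₀ ∪ {z | 1 / ((n : ℝ) + 1) ≤ v₀ z}
  let D₁ : ℕ → Set K := fun n => C₁ ∪ {z | 1 / ((n : ℝ) + 1) ≤ v₁ z}
  have hD₀ : ∀ n, IsClosed (D₀ n) := fun n =>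
    hC₀.union (isClosed_le continuous_const v₀.continuous)
  have hD₁ : ∀ n, IsClosed (D₁ n) := fun n =>
    hC₁.union (isClosed_le continuous_const v₁.continuous)
  have t₀ : ∀ n, D₀ n ⊆ U₀ := fun n => union_subset s₀ fun z hz =>
    (hv₀ z).1 (lt_of_lt_of_le Nat.one_div_pos_of_nat hz)
  have t₁ : ∀ n, D₁ n ⊆ U₁ := fun n => union_subset s₁ fun z hz =>
    (hv₁ z).1 (lt_of_lt_of_le Nat.one_div_pos_of_nat hz)
  have m₀ : ∀ {n k}, n ≤ k → D₀ n ⊆ D₀ k := fun {n k} h =>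
    union_subset_union_right _ fun z (hz : _ ≤ v₀ z) =>
      show _ ≤ v₀ z from le_trans (Nat.one_div_le_one_div h) hz
  have m₁ : ∀ {n k}, n ≤ k → D₁ n ⊆ D₁ k := fun {n k} h =>
    union_subset_union_right _ fun z (hz : _ ≤ v₁ z) =>
      show _ ≤ v₁ z from le_trans (Nat.one_div_le_one_div h) hz
  let St := {q : (K → ℝ) × (K → ℝ) // (∀ z ∉ U₁, Reg g q.1 z) ∧ ∀ z ∉ U₀, Reg g q.2 z}
  have hstep : ∀ (n : ℕ) (q : St), ∃ q' : St,
      (∀ z, |q'.1.2 z - q'.1.1 z| ≤ |q.1.2 z - q.1.1 z| / 3) ∧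
      (∀ z, |q'.1.1 z - q.1.1 z| ≤ |q.1.2 z - q.1.1 z|) ∧
      (∀ z ∈ D₀ n, q'.1.1 z = q.1.1 z) ∧ (∀ z ∈ D₁ n, q'.1.2 z = q.1.2 z) := by
    intro n q
    obtain ⟨P', R', g1, g2, g3, g4, g5, g6⟩ := hf.step hg hU₀ hU₁ hd (hD₀ n) (hD₁ n) (t₀ n) (t₁ n)
      q.2.1 q.2.2
    exact ⟨⟨(P', R'), g1, g2⟩, g3, g4, g5, g6⟩
  choose st k1 k2 k3 k4 using hstep
  let q0 : St := ⟨(fun _ => 0, fun _ => 1), fun z _ => reg_const 0 z, fun z _ => reg_const 1 z⟩
  let sq : ℕ → St := fun n => Nat.rec q0 (fun n q => st n q) n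
  have hsq : ∀ n, sq (n + 1) = st n (sq n) := fun n => rfl
  let P : ℕ → K → ℝ := fun n => (sq n).1.1
  let R : ℕ → K → ℝ := fun n => (sq n).1.2
  have hPR : ∀ n z, |R n z - P n z| ≤ (1 / 3) ^ n := by
    intro n z
    induction n with
    | zero => simp [P, R, sq, q0]
    | succ n ih =>
      have := k1 n (sq n) z
      rw [← hsq] at this
      rw [pow_succ]
      linarith
  have hPP : ∀ z n, dist (P n z) (P (n + 1) z) ≤ 1 * (1 / 3) ^ n := by
    intro z n
    have := k2 n (sq n) z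
    rw [← hsq] at this
    rw [Real.dist_eq, abs_sub_comm, one_mul]
    exact this.trans (hPR n z)
  have hlim : ∀ z, ∃ a, Tendsto (fun n => P n z) atTop (𝓝 a) := fun z =>
    cauchySeq_tendsto_of_complete (cauchySeq_of_le_geometric (1 / 3) 1 (by norm_num) (hPP z))
  choose φ hφ using hlim
  have bP : ∀ n z, |P n z - φ z| ≤ 3 * (1 / 3) ^ n := by
    intro n z
    have := dist_le_of_le_geometric_of_tendsto (1 / 3) 1 (by norm_num) (hPP z) (hφ z) n
    rw [Real.dist_eq] at this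
    have h2 : (0 : ℝ) ≤ (1 / 3) ^ n := by positivity
    have h3 : (1 : ℝ) * (1 / 3) ^ n / (1 - 1 / 3) = 3 / 2 * (1 / 3) ^ n := by ring
    linarith
  have bP' : ∀ n z, |P n z - φ z| ≤ 4 * (1 / 3) ^ n := by
    intro n z
    have h2 : (0 : ℝ) ≤ (1 / 3) ^ n := by positivity
    linarith [bP n z]
  have bR : ∀ n z, |R n z - φ z| ≤ 4 * (1 / 3) ^ n := by
    intro n z
    have := abs_sub_le (R n z) (P n z) (φ z)
    linarith [bP n z, hPR n z]
  have hgeo : Tendsto (fun n : ℕ => 4 * (1 / 3 : ℝ) ^ n) atTop (𝓝 0) := by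
    simpa using (tendsto_pow_atTop_nhds_zero_of_lt_one (r := (1 / 3 : ℝ)) (by norm_num)
      (by norm_num)).const_mul 4
  have hcont : ∀ (F : ℕ → K → ℝ) (z : K), (∀ n w, |F n w - φ w| ≤ 4 * (1 / 3) ^ n) →
      (∀ n, ContinuousAt (F n) z) → ContinuousAt φ z := by
    intro F z hF hc
    refine continuousAt_of_locally_uniform_approx_of_continuousAt fun u hu => ?_
    obtain ⟨ε, hε, hu'⟩ := Metric.mem_uniformity_dist.1 hu
    obtain ⟨n, hn⟩ := (hgeo.eventually (gt_mem_nhds hε)).exists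
    refine ⟨univ, univ_mem, F n, hc n, fun w _ => hu' ?_⟩
    rw [Real.dist_eq, abs_sub_comm]
    exact (hF n w).trans_lt hn
  have heq : ∀ (F : ℕ → K → ℝ) (n : ℕ) (z : K), (∀ n w, |F n w - φ w| ≤ 4 * (1 / 3) ^ n) →
      (∀ k, n ≤ k → F (k + 1) z = F k z) → φ z = F n z := by
    intro F n z hF hc
    have hconst : ∀ k, n ≤ k → F k z = F n z := by
      intro k hk
      induction k, hk using Nat.le_induction with
      | base => rfl
      | succ k hk ih => rw [hc k hk, ih]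
    have : |F n z - φ z| ≤ 0 := by
      refine ge_of_tendsto hgeo ?_
      filter_upwards [eventually_ge_atTop n] with k hk
      rw [← hconst k hk]
      exact hF k z
    have := abs_nonpos_iff.1 this
    linarith
  have e₀ : ∀ n, ∀ z ∈ D₀ n, φ z = P n z := fun n z hz =>
    heq P n z bP' fun k hk => k3 k (sq k) z (m₀ hk hz)
  have e₁ : ∀ n, ∀ z ∈ D₁ n, φ z = R n z := fun n z hz =>
    heq R n z bR fun k hk => k4 k (sq k) z (m₁ hk hz)
  have hφc : Continuous φ := by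
    rw [continuous_iff_continuousAt]
    intro z
    by_cases hz : z ∈ U₁
    · exact hcont R z bR fun n => ((sq n).2.2 z (Set.disjoint_right.1 hd hz)).continuousAt
    · exact hcont P z bP' fun n => ((sq n).2.1 z hz).continuousAt
  have hφr : ∀ z ∈ U₀ ∪ U₁, Reg g φ z := by
    rintro z (hz | hz)
    · obtain ⟨n, hn⟩ := exists_nat_one_div_lt ((hv₀ z).2 hz)
      refine ((sq n).2.1 z (Set.disjoint_left.1 hd hz)).congr ?_
      filter_upwards [(isOpen_lt continuous_const v₀.continuous).mem_nhds hn] with w hw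
      exact (e₀ n w (Or.inr (le_of_lt hw))).symm
    · obtain ⟨n, hn⟩ := exists_nat_one_div_lt ((hv₁ z).2 hz)
      refine ((sq n).2.2 z (Set.disjoint_right.1 hd hz)).congr ?_
      filter_upwards [(isOpen_lt continuous_const v₁.continuous).mem_nhds hn] with w hw
      exact (e₁ n w (Or.inr (le_of_lt hw))).symm
  refine ⟨fun z => max 0 (min 1 (φ z)), by fun_prop, fun z => ⟨le_max_left _ _, ?_⟩,
    fun z hz => ?_, fun z hz => ?_, fun z hz => ?_⟩
  · exact max_le zero_le_one (min_le_left _ _)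
  · have : φ z = 0 := e₀ 0 z (Or.inl hz)
    simp [this]
  · have : φ z = 1 := e₁ 0 z (Or.inl hz)
    simp [this]
  · exact Reg.binop (fun q => max 0 (min 1 q.1)) (by fun_prop) (hφr z hz) (hφr z hz)

end Pool.Agent.Lib.MP_068a93_gt
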